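import Pool.Agent.N184.AF.Dvr

/-!
# Prime ideals: vertical and non-vertical degeneration loci
-/

set_option autoImplicit false

open IsLocalRing

namespace Pool.Agent.N184.AF

/-- Near the prime `q`, the locus `p = 0` is contained in the locus `g = 0`:
`g` is nilpotent in the local ring at `q` modulo `p`. -/
def PInG {A : Type} [CommRing A] (g : A) (p : ℕ) (q : Ideal A) : Prop :=
  ∃ (N : ℕ) (t : A), t ∉ q ∧ t * g ^ N ∈ Ideal.span {(p : A)}

/-- Near the prime `q`, the locus `g = 0` in the closure of the locus `g ≠ 0` is contained in the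
locus `p = 0`: `p` is nilpotent in the local ring at `q` modulo `g` and the `g`-torsion. -/
def GInP {A : Type} [CommRing A] (g : A) (p : ℕ) (q : Ideal A) : Prop :=
  ∃ (M N : ℕ) (t : A), t ∉ q ∧ t * g ^ M * (p : A) ^ N ∈ Ideal.span {g ^ (M + 1)}

section

variable {A : Type} [CommRing A] {g : A} {p : ℕ} {q : Ideal A} [q.IsPrime]

lemma exists_prime_of_not_pInG (h : ¬ PInG g p q) :
    ∃ k : Ideal A, k.IsPrime ∧ k ≤ q ∧ g ∉ k ∧ (p : A) ∈ k := by
  let S : Submonoid A := {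
    carrier := {x | ∃ (t : A) (N : ℕ), t ∉ q ∧ x = t * g ^ N}
    one_mem' := ⟨1, 0, (Ideal.ne_top_iff_one q).1 (Ideal.IsPrime.ne_top ‹_›), by simp⟩
    mul_mem' := by
      rintro x y ⟨t, N, ht, rfl⟩ ⟨u, M, hu, rfl⟩
      exact ⟨t * u, N + M, fun h => (Ideal.IsPrime.mem_or_mem ‹_› h).elim ht hu, by ring⟩ }
  have hd : Disjoint (Ideal.span {(p : A)} : Set A) (S : Set A) := by
    rw [Set.disjoint_left]
    rintro x hx ⟨t, N, ht, rfl⟩
    exact h ⟨N, t, ht, hx⟩
  obtain ⟨k, hk, hpk, hkd⟩ := Ideal.exists_le_prime_disjoint _ S hd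
  rw [Set.disjoint_left] at hkd
  refine ⟨k, hk, ?_, ?_, hpk (Ideal.mem_span_singleton_self _)⟩
  · intro x hx
    by_contra hxq
    exact hkd hx ⟨x, 0, hxq, by simp⟩
  · intro hg
    exact hkd hg ⟨1, 1, (Ideal.ne_top_iff_one q).1 (Ideal.IsPrime.ne_top ‹_›), by simp⟩

lemma exists_primes_of_not_gInP (h : ¬ GInP g p q) :
    ∃ k p' : Ideal A, k.IsPrime ∧ p'.IsPrime ∧ k ≤ p' ∧ p' ≤ q ∧ g ∉ k ∧ g ∈ p' ∧
      (p : A) ∉ p' := by
  let T : Ideal A := {
    carrier := {a | ∃ (M : ℕ) (t : A), t ∉ q ∧ t * g ^ M * a = 0}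
    add_mem' := by
      rintro a b ⟨M, t, ht, ha⟩ ⟨N, u, hu, hb⟩
      refine ⟨M + N, t * u, fun h => (Ideal.IsPrime.mem_or_mem ‹_› h).elim ht hu, ?_⟩
      calc t * u * g ^ (M + N) * (a + b) = u * g ^ N * (t * g ^ M * a) +
            t * g ^ M * (u * g ^ N * b) := by ring
        _ = 0 := by rw [ha, hb]; ring
    zero_mem' := ⟨0, 1, (Ideal.ne_top_iff_one q).1 (Ideal.IsPrime.ne_top ‹_›), by simp⟩
    smul_mem' := by
      rintro c a ⟨M, t, ht, ha⟩
      refine ⟨M, t, ht, ?_⟩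
      rw [smul_eq_mul]
      calc t * g ^ M * (c * a) = c * (t * g ^ M * a) := by ring
        _ = 0 := by rw [ha, mul_zero] }
  let S : Submonoid A := {
    carrier := {x | ∃ (t : A) (N : ℕ), t ∉ q ∧ x = t * (p : A) ^ N}
    one_mem' := ⟨1, 0, (Ideal.ne_top_iff_one q).1 (Ideal.IsPrime.ne_top ‹_›), by simp⟩
    mul_mem' := by
      rintro x y ⟨t, N, ht, rfl⟩ ⟨u, M, hu, rfl⟩
      exact ⟨t * u, N + M, fun h => (Ideal.IsPrime.mem_or_mem ‹_› h).elim ht hu, by ring⟩ }
  have hd : Disjoint ((T ⊔ Ideal.span {g} : Ideal A) : Set A) (S : Set A) := by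
    rw [Set.disjoint_left]
    rintro x hx ⟨t, N, ht, rfl⟩
    obtain ⟨a, ⟨M, u, hu, ha⟩, b, hb, hab⟩ := Submodule.mem_sup.1 hx
    obtain ⟨c, rfl⟩ := Ideal.mem_span_singleton'.1 hb
    refine h ⟨M, N, u * t, fun h => (Ideal.IsPrime.mem_or_mem ‹_› h).elim hu ht, ?_⟩
    refine Ideal.mem_span_singleton'.2 ⟨u * c, ?_⟩
    calc u * c * g ^ (M + 1) = u * g ^ M * (a + c * g) - u * g ^ M * a := by ring
      _ = u * t * g ^ M * (p : A) ^ N := by rw [ha, hab]; ring
  obtain ⟨p', hp', hle, hdis⟩ := Ideal.exists_le_prime_disjoint _ S hd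
  rw [Set.disjoint_left] at hdis
  have hg' : g ∈ p' := hle (Ideal.mem_sup_right (Ideal.mem_span_singleton_self g))
  have hle' : p' ≤ q := by
    intro x hx
    by_contra hxq
    exact hdis hx ⟨x, 0, hxq, by simp⟩
  have hpp : (p : A) ∉ p' := by
    intro hx
    exact hdis hx ⟨1, 1, (Ideal.ne_top_iff_one q).1 (Ideal.IsPrime.ne_top ‹_›), by simp⟩
  let S' : Submonoid A := {
    carrier := {x | ∃ (t : A) (N : ℕ), t ∉ p' ∧ x = t * g ^ N}
    one_mem' := ⟨1, 0, (Ideal.ne_top_iff_one p').1 hp'.ne_top, by simp⟩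
    mul_mem' := by
      rintro x y ⟨t, N, ht, rfl⟩ ⟨u, M, hu, rfl⟩
      exact ⟨t * u, N + M, fun h => (hp'.mem_or_mem h).elim ht hu, by ring⟩ }
  have hd' : Disjoint ((⊥ : Ideal A) : Set A) (S' : Set A) := by
    rw [Set.disjoint_left]
    rintro x hx ⟨t, N, ht, hx'⟩
    have hx0 : x = 0 := by simpa using hx
    apply ht
    apply hle
    refine Ideal.mem_sup_left ⟨N, 1, (Ideal.ne_top_iff_one q).1 (Ideal.IsPrime.ne_top ‹_›), ?_⟩
    rw [one_mul, mul_comm, ← hx', hx0]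
  obtain ⟨k, hk, -, hkd⟩ := Ideal.exists_le_prime_disjoint _ S' hd'
  rw [Set.disjoint_left] at hkd
  refine ⟨k, p', hk, hp', ?_, hle', ?_, hg', hpp⟩
  · intro x hx
    by_contra hxq
    exact hkd hx ⟨x, 0, hxq, by simp⟩
  · intro hg
    exact hkd hg ⟨1, 1, (Ideal.ne_top_iff_one p').1 hp'.ne_top, by simp⟩

omit [q.IsPrime] in
/-- Two different prime numbers are not in a proper ideal. -/
lemma prime_unique (hq : q ≠ ⊤) {r : ℕ} (hp : p.Prime) (hr : r.Prime) (h1 : (p : A) ∈ q)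
    (h2 : (r : A) ∈ q) : r = p := by
  by_contra hne
  have hc : Nat.Coprime r p := (Nat.coprime_primes hr hp).2 hne
  apply (Ideal.ne_top_iff_one q).1 hq
  have h3 := Nat.isCoprime_iff_coprime.2 hc
  obtain ⟨a, b, hab⟩ := h3
  have h4 : (1 : A) = (a : A) * (r : A) + (b : A) * (p : A) := by
    have := congrArg (Int.cast : ℤ → A) hab
    push_cast at this
    exact this.symm
  rw [h4]
  exact q.add_mem (q.mul_mem_left _ h2) (q.mul_mem_left _ h1)

end

section Uniform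

variable {A : Type} [CommRing A] [IsNoetherianRing A] (g : A)

/-- The annihilators of the powers of `g` modulo `p` become stationary. -/
lemma exists_stable (p : ℕ) : ∃ N : ℕ, ∀ (M : ℕ) (t : A), t * g ^ M ∈ Ideal.span {(p : A)} →
    t * g ^ N ∈ Ideal.span {(p : A)} := by
  let f : ℕ →o Ideal A := {
    toFun := fun M => {
      carrier := {t | t * g ^ M ∈ Ideal.span {(p : A)}}
      add_mem' := by
        intro a b ha hb
        rw [Set.mem_ofPred_eq, add_mul]
        exact Ideal.add_mem _ ha hb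
      zero_mem' := by simp
      smul_mem' := by
        intro c a ha
        rw [Set.mem_ofPred_eq, smul_eq_mul, mul_assoc]
        exact Ideal.mul_mem_left _ _ ha }
    monotone' := by
      intro M N hMN t ht
      obtain ⟨d, rfl⟩ := Nat.exists_eq_add_of_le hMN
      change t * g ^ (M + d) ∈ Ideal.span {(p : A)}
      rw [pow_add, ← mul_assoc]
      exact Ideal.mul_mem_right _ _ ht }
  obtain ⟨N, hN⟩ := monotone_stabilizes_iff_noetherian.2 ‹_› f
  refine ⟨N, fun M t ht => ?_⟩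
  rcases le_total N M with h | h
  · have h1 : t ∈ f M := ht
    rw [← hN M h] at h1
    exact h1
  · exact f.monotone h ht

/-- The exceptional primes. -/
def badPrimes : Set ℕ :=
  {p | p.Prime ∧ ∃ r ∈ minimalPrimes A, ∃ p' ∈ (r ⊔ Ideal.span {g}).minimalPrimes, (p : A) ∈ p'}

lemma finite_badPrimes : (badPrimes g).Finite := by
  have h1 : badPrimes g = ⋃ r ∈ minimalPrimes A, ⋃ p' ∈ (r ⊔ Ideal.span {g}).minimalPrimes,
      {p : ℕ | p.Prime ∧ (p : A) ∈ p'} := by
    ext p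
    simp only [badPrimes, Set.mem_iUnion, Set.mem_ofPred_eq]
    constructor
    · rintro ⟨hp, r, hr, p', hp', h⟩
      exact ⟨r, hr, p', hp', hp, h⟩
    · rintro ⟨r, hr, p', hp', hp, h⟩
      exact ⟨hp, r, hr, p', hp', h⟩
  rw [h1]
  refine Set.Finite.biUnion (minimalPrimes.finite_of_isNoetherianRing A) fun r _ => ?_
  refine Set.Finite.biUnion (Ideal.finite_minimalPrimes_of_isNoetherianRing A _) fun p' hp' => ?_
  apply Set.Subsingleton.finite
  rintro a ⟨ha, ha'⟩ b ⟨hb, hb'⟩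
  exact prime_unique hp'.1.1.ne_top hb ha hb' ha'

/-- The constant. -/
lemma exists_constant : ∃ C : ℕ, ∀ p ∈ badPrimes g, p < C ∧ ∃ N < C, ∀ (M : ℕ) (t : A),
    t * g ^ M ∈ Ideal.span {(p : A)} → t * g ^ N ∈ Ideal.span {(p : A)} := by
  choose f hf using exists_stable g
  obtain ⟨C, hC⟩ := ((finite_badPrimes g).image (fun p => max p (f p))).bddAbove
  refine ⟨C + 1, fun p hp => ?_⟩
  have h1 := hC (Set.mem_image_of_mem _ hp)
  refine ⟨Nat.lt_succ_of_le ((le_max_left _ _).trans h1), f p,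
    Nat.lt_succ_of_le ((le_max_right _ _).trans h1), hf p⟩

end Uniform

end Pool.Agent.N184.AF
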