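import Pool.Agent.N184.AF.Main
import Pool.Agent.N184.WM.Geo
import Pool.Agent.N184.HP.Weil

/-!
# mw purity implies the monodromy isomorphisms
-/

set_option autoImplicit false

open IsLocalRing Module Pool.Agent.Y143 Pool.Agent.N184.WM Pool.Agent.N184.HP

namespace Pool.Agent.N184.AF

universe u v

/-- Two filtrations with pure graded pieces of the same weights are equal. -/
theorem fil_le {Ω : Type u} [Field Ω] [CharZero Ω] [IsAlgClosed Ω] {V : Type v} [AddCommGroup V]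
    [Module Ω V] [FiniteDimensional Ω V] {q : ℕ} (hq : 1 < q) {Φ : Module.End Ω V} {k : ℤ}
    {M W : ℤ → Submodule Ω V} (hM : Monotone M) (hMb : ∃ a, M a = ⊥)
    (hΦM : ∀ a x, x ∈ M a → Φ x ∈ M a)
    (hMw : ∀ (a : ℤ) (α : Ω) (x : V), x ∈ M a → x ∉ M (a - 1) → Φ x - α • x ∈ M (a - 1) →
      IsWeilNumber q (a + k) α) (hW : Monotone W) (hWt : ∃ a, W a = ⊤)
    (hΦW : ∀ a x, x ∈ W a → Φ x ∈ W a)
    (hWw : ∀ (a : ℤ) (α : Ω) (x : V), x ∈ W a → x ∉ W (a - 1) → Φ x - α • x ∈ W (a - 1) →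
      IsWeilNumber q (a + k) α) (a : ℤ) : M a ≤ W a := by
  by_contra hcon
  let B : Submodule Ω V := M a ⊓ W a
  have hBM : B ≤ M a := inf_le_left
  have hB : ∀ x ∈ B, Φ x ∈ B := fun x hx => ⟨hΦM a x hx.1, hΦW a x hx.2⟩
  -- an eigenvector on `M a / B`
  obtain ⟨α, y, hy, hyB, hyα⟩ : ∃ (α : Ω) (y : V), y ∈ M a ∧ y ∉ B ∧ Φ y - α • y ∈ B := by
    let T : Module.End Ω (V ⧸ B) := B.mapQ B Φ hB
    let P : Submodule Ω (V ⧸ B) := (M a).map B.mkQ
    have hTP : ∀ x ∈ P, T x ∈ P := by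
      rintro _ ⟨x, hx, rfl⟩
      exact ⟨Φ x, hΦM a x hx, rfl⟩
    have hP : Nontrivial P := by
      rw [Submodule.nontrivial_iff_ne_bot]
      intro hbot
      apply hcon
      intro x hx
      have h1 : B.mkQ x ∈ P := ⟨x, hx, rfl⟩
      rw [hbot, Submodule.mem_bot, Submodule.mkQ_apply, Submodule.Quotient.mk_eq_zero] at h1
      exact h1.2
    obtain ⟨α, hα⟩ := Module.End.exists_eigenvalue (T.restrict hTP)
    obtain ⟨⟨z, hz⟩, hzv⟩ := hα.exists_hasEigenvector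
    obtain ⟨y, hy, rfl⟩ := hz
    refine ⟨α, y, hy, ?_, ?_⟩
    · intro hc
      apply hzv.2
      apply Subtype.ext
      change B.mkQ y = 0
      rwa [Submodule.mkQ_apply, Submodule.Quotient.mk_eq_zero]
    · have h1 : T (B.mkQ y) = α • B.mkQ y := congrArg Subtype.val hzv.apply_eq_smul
      have h2 : T (B.mkQ y) = B.mkQ (Φ y) := rfl
      rw [h2, ← map_smul, ← sub_eq_zero, ← map_sub, Submodule.mkQ_apply,
        Submodule.Quotient.mk_eq_zero] at h1
      exact h1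
  obtain ⟨w, hw, z, hz, hz', hzα⟩ := eigen_below hM hMb hBM hB le_rfl hy hyB hyα
  have hyW : y ∉ W a := fun hc => hyB ⟨hy, hc⟩
  obtain ⟨w', hw', z', hz1, hz2, hz3⟩ := eigen_above hW hWt hΦW
    (le_sup_right : W a ≤ M a ⊔ W a) (fun x hx => hΦW a x hx) le_rfl
    (Submodule.mem_sup_left hy) hyW hyα.2
  have h1 := weight_unique hq (hMw w α z hz hz' hzα) (hWw w' α z' hz1 hz2 hz3)
  omega

/-- mw purity in all degrees implies the monodromy isomorphisms. -/
theorem iso_of_isMWPure {Ω : Type u} [Field Ω] [CharZero Ω] [IsAlgClosed Ω] {Γ : Type} {n q : ℕ}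
    (hq : 1 < q) (X : SemistableModel.{u, v} Ω Γ n q)
    (h : ∀ k : ℕ, IsMWPure q k (X.actV k X.frob) (X.N k)) :
    HasMonodromyIso X.toStrataData := by
  intro a w
  rcases lt_or_ge w 0 with hw | hw
  · -- all groups are zero
    have hz : ∀ (r w' : ℤ), r + w' = w → ∀ x ∈ X.E₁ r w', x = 0 := by
      intro r w' hrw x hx
      funext b
      have h1 := (hx b).1
      rw [X.gr_eq_bot b _ (Or.inl (by omega)), Submodule.mem_bot] at h1
      exact h1
    constructor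
    · intro x hx _
      rw [hz (-a) (w + a) (by ring) x hx.1]
      exact zero_mem _
    · intro y hy
      refine ⟨0, zero_mem _, ?_⟩
      rw [hz a (w - a) (by ring) y hy.1, map_zero, sub_zero]
      exact zero_mem _
  obtain ⟨k, rfl⟩ := Int.eq_ofNat_of_zero_le hw
  obtain ⟨M, hM, hΦM, hMw⟩ := h k
  have hfin := finite_V X k
  have hWm : Monotone (fun a : ℤ => X.W k ((k : ℤ) + a)) := fun a b hab => X.W_mono k (by omega)
  have hWt : ∃ a : ℤ, X.W k ((k : ℤ) + a) = ⊤ := by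
    obtain ⟨w, hw⟩ := X.W_top k
    exact ⟨w - k, by rw [show (k : ℤ) + (w - k) = w by ring, hw]⟩
  have hWb : ∃ a : ℤ, X.W k ((k : ℤ) + a) = ⊥ := by
    obtain ⟨w, hw⟩ := X.W_bot k
    exact ⟨w - k, by rw [show (k : ℤ) + (w - k) = w by ring, hw]⟩
  have hWw : ∀ (a : ℤ) (α : Ω) (x : X.V k), x ∈ X.W k ((k : ℤ) + a) →
      x ∉ X.W k ((k : ℤ) + (a - 1)) →
      X.actV k X.frob x - α • x ∈ X.W k ((k : ℤ) + (a - 1)) → IsWeilNumber q (a + k) α := by
    intro a α x hx hx' hα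
    have := weil_W X k (k + a) α x hx (by rwa [show (k : ℤ) + a - 1 = k + (a - 1) by ring])
      (by rwa [show (k : ℤ) + a - 1 = k + (a - 1) by ring])
    rwa [add_comm] at this
  have hMW : ∀ a : ℤ, M a ≤ X.W k ((k : ℤ) + a) := fun a =>
    fil_le hq (Φ := X.actV k X.frob) (k := k) hM.mono hM.bot hΦM hMw
      (W := fun a : ℤ => X.W k ((k : ℤ) + a)) hWm hWt
      (fun a x hx => act_W X k _ _ x hx) hWw a
  have hWM : ∀ a : ℤ, X.W k ((k : ℤ) + a) ≤ M a := fun a =>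
    fil_le hq (Φ := X.actV k X.frob) (k := k) (M := fun a : ℤ => X.W k ((k : ℤ) + a)) hWm hWb
      (fun a x hx => act_W X k _ _ x hx) hWw hM.mono hM.top hΦM hMw a
  constructor
  · intro x hx hx'
    rw [Module.End.one_apply] at hx'
    obtain ⟨v, hv⟩ := X.sp_right k ((k : ℤ) + a) x (by
      rwa [show (k : ℤ) - (k + a) = -a by ring])
    have h1 := X.N_pow_sp hv a le_rfl
    have h2 : (X.N k ^ a) v ∈ X.W k ((k : ℤ) + (-a - 1)) :=
      X.W_cast (by ring) ((X.sp_ker k _ _ _ h1).2 (by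
        rwa [show (k : ℤ) - (k + a - 2 * a) = a by ring,
          show (k : ℤ) + a - 2 * a = k - a by ring]))
    have h3 := hM.inj a v (hWM a (X.sp_mem k _ _ _ hv).1) (hWM _ h2)
    have h4 := (X.sp_ker k _ _ _ hv).1 (X.W_cast (by ring) (hMW _ h3))
    rwa [show (k : ℤ) - (k + a) = -a by ring] at h4
  · intro y hy
    obtain ⟨v, hv⟩ := X.sp_right k ((k : ℤ) - a) y (by
      rwa [show (k : ℤ) - (k - a) = a by ring])
    obtain ⟨u, hu, hu'⟩ := hM.surj a v (hWM _ (X.W_cast (show (k : ℤ) - a = k + -a by ring)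
      (X.sp_mem k _ _ _ hv).1))
    obtain ⟨x, hx⟩ := X.sp_left k _ u (hMW _ hu)
    have h1 := X.N_pow_sp hx a le_rfl
    have h2 := (X.sp_mem k _ _ _ hx).2
    rw [show (k : ℤ) - (k + a) = -a by ring] at h2
    refine ⟨x, h2, ?_⟩
    rw [Module.End.one_apply]
    have h3 : (v - (X.N k ^ a) u, y - x) ∈ X.sp k ((k : ℤ) - a) :=
      Submodule.sub_mem _ hv (X.sp_cast (show (k : ℤ) + a - 2 * a = k - a by ring) h1)
    have h4 := (X.sp_ker k _ _ _ h3).1 (X.W_cast (show (k : ℤ) + (-a - 1) = k - a - 1 by ring)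
      (hMW _ hu'))
    rwa [show (k : ℤ) - (k - a) = a by ring] at h4

/-- Whether all cohomology groups are mw pure depends only on the component of `g = 0`. -/
theorem invariance {A : Type} [CommRing A] {g : A} {Ω : ℕ → Type} [∀ ℓ, Field (Ω ℓ)]
    [∀ ℓ, CharZero (Ω ℓ)] [∀ ℓ, IsAlgClosed (Ω ℓ)] (F : SemistableFamily A g Ω)
    {O : Type} [CommRing O] [IsLocalRing O] [Finite (ResidueField O)]
    {O' : Type} [CommRing O'] [IsLocalRing O']
    (s : A →+* O) (s' : A →+* O') (x : PrimeSpectrum A) (hg : g ∈ x.asIdeal)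
    (hx : x ≤ closedPt s) (hx' : x ≤ closedPt s') {ℓ : ℕ} (hℓ : ℓ.Prime) (hu : IsUnit (ℓ : O))
    (hu' : IsUnit (ℓ : O')) {Γ : Type} {n q : ℕ}
    (X : SemistableModel.{0, 0} (Ω ℓ) Γ n (Nat.card (ResidueField O)))
    (X' : SemistableModel.{0, 0} (Ω ℓ) Γ n q) (hX : IsFibre F s ℓ X) (hX' : IsFibre F s' ℓ X')
    (h : ∀ k : ℕ, IsMWPure (Nat.card (ResidueField O)) k (X.actV k X.frob) (X.N k)) (k : ℕ) :
    IsMWPure q k (X'.actV k X'.frob) (X'.N k) := by
  have hnot : ∀ {P : Type} [CommRing P] [IsLocalRing P] (t : A →+* P), IsUnit (ℓ : P) →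
      (ℓ : A) ∉ (closedPt t).asIdeal := by
    intro P _ _ t hu hm
    have h1 : (ℓ : P) ∈ maximalIdeal P := by
      have : (ℓ : A) ∈ (maximalIdeal P).comap t := hm
      rwa [Ideal.mem_comap, map_natCast] at this
    exact (mem_maximalIdeal _).1 h1 hu
  have h1 : HasMonodromyIso X.toStrataData := iso_of_isMWPure Finite.one_lt_card X h
  have h2 : HasMonodromyIso (F.strata ℓ (closedPt s)) :=
    Corresponds.hasMonodromyIso (Corresponds.symm hX) h1
  have h3 : HasMonodromyIso (F.strata ℓ x) :=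
    (F.locallyConstant ℓ hℓ x (closedPt s) hx hg (hnot s hu)).hasMonodromyIso h2
  have h4 : HasMonodromyIso (F.strata ℓ (closedPt s')) :=
    (F.locallyConstant ℓ hℓ x (closedPt s') hx' hg (hnot s' hu')).symm.hasMonodromyIso h3
  exact isMWPure_of_iso X' (Corresponds.hasMonodromyIso hX' h4) k

end Pool.Agent.N184.AF
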