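import Pool.Agent.Y143.Defs
import Pool.Agent.N184.AF.Alg

/-!
# Cohomology of semistable families over a noetherian base: definitions

`A` is a commutative ring, `g` an element of `A`, and `𝒳` a projective scheme over `Spec A`, strictly
semistable along `g`: étale locally on `𝒳` it is étale over `A[x_1, …, x_m] / (x_1 ⋯ x_r - g)` (so it is
smooth where `g` is invertible), and over `g = 0` it is a union of components with smooth
intersections.
-/

set_option autoImplicit false

open IsLocalRing Pool.Agent.Y143

namespace Pool.Agent.N184.AF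

universe u v v'

/-- Two systems of cohomology groups of strata correspond to each other: there are isomorphisms which
respect the degrees, the restriction maps and the Gysin maps. -/
def Corresponds {Ω : Type u} [Field Ω] {Γ Γ' : Type} (X : StrataData.{u, v} Ω Γ)
    (Y : StrataData.{u, v'} Ω Γ') : Prop :=
  ∃ e : ∀ a, X.H a ≃ₗ[Ω] Y.H a, (∀ a m x, x ∈ X.gr a m ↔ e a x ∈ Y.gr a m) ∧
    (∀ a x, e (a + 1) (X.res a x) = Y.res a (e a x)) ∧
    ∀ a x, e a (X.gys a x) = Y.gys a (e (a + 1) x)

/-- The monodromy isomorphisms `N ^ a : E_2^(-a, w + a) ≅ E_2^(a, w - a)`; on the `E_1` term `N ^ a` is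
the identity of the common summands. -/
def HasMonodromyIso {Ω : Type u} [Field Ω] {Γ : Type} (X : StrataData.{u, v} Ω Γ) : Prop :=
  ∀ (a : ℕ) (w : ℤ), IsoOn (1 : Module.End Ω X.C) (X.cocycles (-a) (w + a))
    (X.coboundaries (-a) (w + a)) (X.cocycles a (w - a)) (X.coboundaries a (w - a))

/-- The image of the closed point. -/
def closedPt {A R : Type} [CommRing A] [CommRing R] [IsLocalRing R] (s : A →+* R) :
    PrimeSpectrum A :=
  ⟨(maximalIdeal R).comap s, inferInstance⟩

/-- The local ring `R` has the same characteristic as its residue field. -/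
def IsEqualChar (R : Type) [CommRing R] [IsLocalRing R] : Prop :=
  ∀ p : ℕ, p.Prime → (p : R) ∈ maximalIdeal R → (p : R) = 0

variable {A : Type} [CommRing A]

/-- The proper and smooth base change theorems for the strata of the fibres over `g = 0`: if `y` is a
specialization of `x` and `ℓ` is invertible at `y`, then the cohomology groups of the strata of the
geometric fibres at `x` and at `y` are the same. -/
def IsLocallyConstant (g : A) {Ω : ℕ → Type} [∀ ℓ, Field (Ω ℓ)]
    (S : ∀ ℓ : ℕ, PrimeSpectrum A → StrataData.{0, 0} (Ω ℓ) Unit) : Prop :=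
  ∀ ℓ : ℕ, ℓ.Prime → ∀ x y : PrimeSpectrum A, x ≤ y → g ∈ x.asIdeal → (ℓ : A) ∉ y.asIdeal →
    Corresponds (S ℓ x) (S ℓ y)

/-- The monodromy-weight conjecture over discrete valuation rings of equal characteristic (Deligne;
Terasoma and Ito for arbitrary residue fields), for the fibres of the family over `R` with smooth
generic fibre. -/
def HasEqualCharPurity (g : A) {Ω : ℕ → Type} [∀ ℓ, Field (Ω ℓ)]
    (S : ∀ ℓ : ℕ, PrimeSpectrum A → StrataData.{0, 0} (Ω ℓ) Unit) : Prop :=
  ∀ (R : Type) [CommRing R] [IsDomain R] [IsDiscreteValuationRing R] (s : A →+* R),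
    IsEqualChar R → s g ≠ 0 → s g ∈ maximalIdeal R →
      ∀ ℓ : ℕ, ℓ.Prime → IsUnit (ℓ : R) → HasMonodromyIso (S ℓ (closedPt s))

/-- The cohomology of a projective strictly semistable family over `Spec A`, with degeneration locus
`g = 0`: for a prime number `ℓ` and a point `x` of `Spec A` where `g` vanishes and `ℓ` does not, `strata ℓ x`
is the cohomology with coefficients in `Ω ℓ` (an algebraic closure of `ℚ_ℓ`) of the strata of the
geometric fibre at `x`. -/
structure SemistableFamily (A : Type) [CommRing A] (g : A) (Ω : ℕ → Type) [∀ ℓ, Field (Ω ℓ)] where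
  strata : ∀ ℓ : ℕ, PrimeSpectrum A → StrataData.{0, 0} (Ω ℓ) Unit
  locallyConstant : IsLocallyConstant g strata
  equalChar : HasEqualCharPurity g strata

variable {g : A} {Ω : ℕ → Type} [∀ ℓ, Field (Ω ℓ)]

/-- `X` is the cohomology of the fibre over the `O`-valued point `s`, with coefficients in `Ω ℓ`: the
special fibre of this fibre is the fibre of the family over the closed point. -/
def IsFibre (F : SemistableFamily A g Ω) {O : Type} [CommRing O] [IsLocalRing O] (s : A →+* O)
    (ℓ : ℕ) [CharZero (Ω ℓ)] {Γ : Type} {n q : ℕ} (X : SemistableModel.{0, 0} (Ω ℓ) Γ n q) :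
    Prop :=
  Corresponds X.toStrataData (F.strata ℓ (closedPt s))

/-- Property mw for the fibre over the `O`-valued point `s`, for all `ℓ` different from the residue
characteristic and all degrees `k`. -/
def IsPureFibre (F : SemistableFamily A g Ω) [∀ ℓ, CharZero (Ω ℓ)] (O : Type) [CommRing O]
    [IsLocalRing O] (s : A →+* O) : Prop :=
  ∀ ℓ : ℕ, ℓ.Prime → IsUnit (ℓ : O) → ∀ {Γ : Type} {n : ℕ}
    (X : SemistableModel.{0, 0} (Ω ℓ) Γ n (Nat.card (ResidueField O))), IsFibre F s ℓ X →
      ∀ k : ℕ, IsMWPure (Nat.card (ResidueField O)) k (X.actV k X.frob) (X.N k)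

end Pool.Agent.N184.AF
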