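import Mathlib

/-!
# Discrete valuation rings dominating noetherian local domains

Elementary form of the theorem of Krull and Akizuki: a valuation ring of the fraction field which
dominates a one-dimensional noetherian local domain is discrete.
-/

set_option autoImplicit false

open Module Pointwise

namespace Pool.Agent.N184.AF

section Chain

variable {B : Type*} [CommRing B] [IsDomain B] [IsNoetherianRing B] [Ring.KrullDimLE 1 B]

/-- The length of `B / J`. -/
noncomputable def len (J : Ideal B) : ℕ∞ := Module.length B (B ⧸ J)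

omit [IsNoetherianRing B] [Ring.KrullDimLE 1 B] [IsDomain B] in
lemma len_anti {J J' : Ideal B} (h : J ≤ J') : len J' ≤ len J :=
  Module.length_le_of_surjective (Submodule.factor h) (Submodule.factor_surjective h)

lemma len_ne_top {J : Ideal B} {y : B} (hy : y ∈ J) (h0 : y ≠ 0) : len J ≠ ⊤ := by
  have h1 : len J ≤ Ring.ord B y := len_anti ((Ideal.span_singleton_le_iff_mem _).2 hy)
  exact ne_top_of_le_ne_top (Ring.ord_ne_top (mem_nonZeroDivisors_of_ne_zero h0)) h1

lemma len_lt {J J' : Ideal B} (h : J < J') {y : B} (hy : y ∈ J) (h0 : y ≠ 0) :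
    len J' + 1 ≤ len J := by
  have hfin := len_ne_top hy h0
  have hF : IsFiniteLength B (B ⧸ J) := Module.length_ne_top_iff.1 hfin
  rw [isFiniteLength_iff_isNoetherian_isArtinian] at hF
  obtain ⟨_, _⟩ := hF
  have hp : Submodule.map (Submodule.mkQ J) J' ≠ ⊥ := by
    intro hb
    apply h.not_ge
    intro z hz
    have : Submodule.mkQ J z ∈ Submodule.map (Submodule.mkQ J) J' := ⟨z, hz, rfl⟩
    rw [hb, Submodule.mem_bot] at this
    exact (Submodule.Quotient.mk_eq_zero J).1 this
  have h1 := Submodule.length_quotient_lt (R := B) (M := B ⧸ J) (Submodule.map (Submodule.mkQ J) J') hp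
  have h2 := (Submodule.quotientQuotientEquivQuotient J J' h.le).length_eq
  have h3 : len J' < len J := by
    unfold len
    rw [← h2]
    exact h1
  exact Order.add_one_le_of_lt h3

omit [IsNoetherianRing B] [Ring.KrullDimLE 1 B] in
lemma len_smul {b : B} (hb : b ≠ 0) (I : Ideal B) : len (b • I) = len I + Ring.ord B b := by
  unfold len Ring.ord
  exact Module.length_eq_add_of_exact (Ideal.mulQuot b I) (Ideal.quotOfMul b I)
    (Ideal.mulQuot_injective I (mem_nonZeroDivisors_of_ne_zero hb))
    (Ideal.quotOfMul_surjective I) (Ideal.exact_mulQuot_quotOfMul I)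

lemma len_chain {J : ℕ → Ideal B} {n : ℕ} (h : ∀ i < n, J i < J (i + 1)) {y : B} (hy : y ∈ J 0)
    (h0 : y ≠ 0) : len (J n) + n ≤ len (J 0) := by
  have hmono : ∀ i ≤ n, J 0 ≤ J i := by
    intro i
    induction i with
    | zero => intro _; exact le_rfl
    | succ i ih => intro hi; exact (ih (by omega)).trans (h i (by omega)).le
  have key : ∀ i ≤ n, len (J i) + i ≤ len (J 0) := by
    intro i
    induction i with
    | zero => intro _; simp
    | succ i ih =>
      intro hi
      have h1 := ih (by omega)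
      have h2 := len_lt (h i (by omega)) (hmono i (by omega) hy) h0
      calc len (J (i + 1)) + ((i + 1 : ℕ) : ℕ∞) = (len (J (i + 1)) + 1) + i := by
            push_cast; ring
        _ ≤ len (J i) + i := by gcongr
        _ ≤ len (J 0) := h1
  exact key n le_rfl

variable {K : Type*} [Field K] [Algebra B K] [IsFractionRing B K]

/-- The ideal `B ∩ c V`. -/
def cap (V : Subring K) (hV : ∀ x : B, algebraMap B K x ∈ V) (c : K) : Ideal B where
  carrier := {y | ∃ v ∈ V, algebraMap B K y = c * v}
  add_mem' := by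
    rintro x y ⟨v, hv, hx⟩ ⟨w, hw, hy⟩
    exact ⟨v + w, V.add_mem hv hw, by rw [map_add, hx, hy]; ring⟩
  zero_mem' := ⟨0, V.zero_mem, by simp⟩
  smul_mem' := by
    rintro a x ⟨v, hv, hx⟩
    exact ⟨algebraMap B K a * v, V.mul_mem (hV a) hv, by rw [smul_eq_mul, map_mul, hx]; ring⟩

omit [IsDomain B] [IsNoetherianRing B] [Ring.KrullDimLE 1 B] [IsFractionRing B K] in
lemma mem_cap {V : Subring K} {hV : ∀ x : B, algebraMap B K x ∈ V} {c : K} {y : B} :
    y ∈ cap V hV c ↔ ∃ v ∈ V, algebraMap B K y = c * v := Iff.rfl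

/-- A chain of proper divisors in `V` of an element of `B` has length at most `ord b`. -/
lemma chain_bound (V : Subring K) (hV : ∀ x : B, algebraMap B K x ∈ V) {b : B} (hb : b ≠ 0)
    {n : ℕ} {a : ℕ → K} (ha : ∀ i ≤ n, a i ∈ V)
    (hd : ∀ i < n, ∃ u ∈ V, a i = a (i + 1) * u)
    (hnd : ∀ i < n, ¬ ∃ u ∈ V, a (i + 1) = a i * u)
    (hba : ∃ v ∈ V, algebraMap B K b = a 0 * v) : (n : ℕ∞) ≤ Ring.ord B b := by
  classical
  obtain ⟨c, hc⟩ := IsLocalization.exist_integer_multiples_of_finset (nonZeroDivisors B)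
    ((Finset.range (n + 1)).image a)
  have hc0 : (c : B) ≠ 0 := nonZeroDivisors.ne_zero c.2
  have hcK : algebraMap B K c ≠ 0 := by
    rw [map_ne_zero_iff _ (IsFractionRing.injective B K)]
    exact hc0
  have hci : ∀ i ≤ n, ∃ y : B, algebraMap B K y = algebraMap B K c * a i := by
    intro i hi
    obtain ⟨y, hy⟩ := hc (a i) (Finset.mem_image_of_mem _ (by simpa using Nat.lt_succ_of_le hi))
    exact ⟨y, by rw [hy]; exact Algebra.smul_def _ _⟩
  let I : Ideal B := cap V hV (algebraMap B K c)
  let J : ℕ → Ideal B := fun i => cap V hV (algebraMap B K c * a i)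
  have hJ : ∀ i < n, J i < J (i + 1) := by
    intro i hi
    refine lt_of_le_of_ne ?_ ?_
    · rintro y ⟨v, hv, hy⟩
      obtain ⟨u, hu, hu'⟩ := hd i hi
      exact ⟨u * v, V.mul_mem hu hv, by rw [hy, hu']; ring⟩
    · intro he
      obtain ⟨y, hy⟩ := hci (i + 1) (by omega)
      have h1 : y ∈ J (i + 1) := ⟨1, V.one_mem, by rw [hy, mul_one]⟩
      rw [← he] at h1
      obtain ⟨v, hv, h2⟩ := h1
      rw [hy, mul_assoc] at h2
      exact hnd i hi ⟨v, hv, mul_left_cancel₀ hcK h2⟩
  have hJI : J n ≤ I := by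
    rintro y ⟨v, hv, hy⟩
    exact ⟨a n * v, V.mul_mem (ha n le_rfl) hv, by rw [hy]; ring⟩
  have hbI : b • I ≤ J 0 := by
    intro z hz
    obtain ⟨y, ⟨v, hv, hy⟩, rfl⟩ := Submodule.mem_smul_pointwise_iff_exists _ _ _ |>.1 hz
    obtain ⟨w, hw, hw'⟩ := hba
    exact ⟨w * v, V.mul_mem hw hv, by rw [smul_eq_mul, map_mul, hy, hw']; ring⟩
  have hcI : (c : B) ∈ I := ⟨1, V.one_mem, by simp⟩
  have hbc : b * c ∈ b • I := Submodule.mem_smul_pointwise_iff_exists _ _ _ |>.2 ⟨c, hcI, rfl⟩
  have h1 : len (J n) + n ≤ len (J 0) :=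
    len_chain hJ (hbI hbc) (mul_ne_zero hb hc0)
  have h2 : len I + n ≤ len I + Ring.ord B b := by
    rw [← len_smul hb I]
    calc len I + n ≤ len (J n) + n := by gcongr; exact len_anti hJI
      _ ≤ len (J 0) := h1
      _ ≤ len (b • I) := len_anti hbI
  have h3 : len I ≠ ⊤ := len_ne_top hcI hc0
  exact (ENat.add_le_add_iff_left h3).1 h2

end Chain

section Exists

/-- A valuation ring of the fraction field of a one-dimensional noetherian domain is discrete, unless
it is a field. -/
theorem isDVR_of_dominates {B : Type*} [CommRing B] [IsDomain B] [IsNoetherianRing B]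
    [Ring.KrullDimLE 1 B] {K : Type*} [Field K] [Algebra B K] [IsFractionRing B K]
    (V : ValuationSubring K) (hV : ∀ x : B, algebraMap B K x ∈ V.toSubring)
    (hne : ∃ x : V, x ≠ 0 ∧ ¬ IsUnit x) : IsDiscreteValuationRing V := by
  have hwf : WfDvdMonoid V := by
    refine ⟨?_⟩
    rw [wellFounded_iff_isEmpty_descending_chain]
    refine ⟨fun ⟨f, hf⟩ => ?_⟩
    have hf0 : ∀ i, f (i + 1) ≠ 0 := fun i => (hf i).1
    obtain ⟨b, c, hc, hbc⟩ := IsFractionRing.div_surjective (A := B) ((f 1 : V) : K)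
    have hcK : algebraMap B K c ≠ 0 := by
      rw [map_ne_zero_iff _ (IsFractionRing.injective B K)]
      exact nonZeroDivisors.ne_zero hc
    have hb : algebraMap B K b = ((f 1 : V) : K) * algebraMap B K c := by
      rw [← hbc, div_mul_cancel₀ _ hcK]
    have hb0 : b ≠ 0 := by
      rintro rfl
      rw [map_zero] at hb
      rcases mul_eq_zero.1 hb.symm with h | h
      · exact hf0 0 (by exact_mod_cast h)
      · exact hcK h
    have hbound : ∀ n : ℕ, (n : ℕ∞) ≤ Ring.ord B b := by
      intro n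
      refine chain_bound V.toSubring hV hb0 (a := fun i => ((f (i + 1) : V) : K))
        (fun i _ => (f (i + 1)).2) ?_ ?_ ⟨algebraMap B K c, hV c, hb⟩
      · intro i _
        obtain ⟨x, _, hx⟩ := (hf (i + 1)).2
        exact ⟨x, x.2, by rw [hx]; rfl⟩
      · rintro i _ ⟨u, hu, hu'⟩
        obtain ⟨x, hx, hx'⟩ := (hf (i + 1)).2
        apply hx
        have h1 : f (i + 1 + 1) = f (i + 1) * ⟨u, hu⟩ := Subtype.ext hu'
        have h2 : f (i + 1 + 1) * (x * ⟨u, hu⟩) = f (i + 1 + 1) * 1 := by
          rw [← mul_assoc, ← hx', mul_one, ← h1]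
        exact IsUnit.of_mul_eq_one _ (mul_left_cancel₀ (hf0 (i + 1)) h2)
    have htop : Ring.ord B b = ⊤ := by
      rw [ENat.eq_top_iff_forall_ge]
      exact hbound
    exact Ring.ord_ne_top (mem_nonZeroDivisors_of_ne_zero hb0) htop
  have hP : IsPrincipalIdealRing V := ((IsBezout.TFAE (R := V)).out 3 1).1 hwf
  obtain ⟨x, hx0, hx⟩ := hne
  exact { hP with
    not_a_field' := by
      intro h
      have : x ∈ IsLocalRing.maximalIdeal V := (IsLocalRing.mem_maximalIdeal x).2 hx
      rw [h] at this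
      exact hx0 (by simpa using this) }

open IsLocalRing

lemma exists_dvr_local {B : Type} [CommRing B] [IsDomain B] [IsLocalRing B] [IsNoetherianRing B]
    [Ring.KrullDimLE 1 B] {γ : B} (h0 : γ ≠ 0) (hγ : γ ∈ maximalIdeal B) :
    ∃ (R : Type) (_ : CommRing R) (_ : IsDomain R) (_ : IsDiscreteValuationRing R) (t : B →+* R),
      Function.Injective t ∧ ∀ x, IsUnit (t x) → IsUnit x := by
  obtain ⟨V, hV, hloc⟩ := IsLocalRing.exists_factor_valuationRing (algebraMap B (FractionRing B))
  let t : B →+* V := (algebraMap B (FractionRing B)).codRestrict V.toSubring hV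
  have ht : Function.Injective t := by
    intro x y hxy
    exact IsFractionRing.injective B (FractionRing B) (congrArg Subtype.val hxy)
  refine ⟨V, inferInstance, inferInstance, ?_, t, ht, fun x hx => hloc.map_nonunit x hx⟩
  refine isDVR_of_dominates V hV ⟨t γ, ?_, fun h => (mem_maximalIdeal _).1 hγ
    (hloc.map_nonunit γ h)⟩
  intro h
  exact h0 (ht (by rw [h, map_zero]))

/-- Every noetherian local domain which is not a field is dominated by a discrete valuation ring;
here for a localisation of a quotient of a noetherian ring `A`. -/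
theorem exists_dvr {A : Type} [CommRing A] [IsNoetherianRing A] {g : A} (k q : Ideal A)
    [k.IsPrime] [q.IsPrime] (hkq : k ≤ q) (hg : g ∈ q) (hk : g ∉ k) :
    ∃ (R : Type) (_ : CommRing R) (_ : IsDomain R) (_ : IsDiscreteValuationRing R) (s : A →+* R),
      s g ≠ 0 ∧ s g ∈ maximalIdeal R ∧ (maximalIdeal R).comap s ≤ q ∧ ∀ x ∈ k, s x = 0 := by
  have hker : RingHom.ker (Ideal.Quotient.mk k) ≤ q := by rw [Ideal.mk_ker]; exact hkq
  have hq' : (q.map (Ideal.Quotient.mk k)).IsPrime :=
    Ideal.map_isPrime_of_surjective Ideal.Quotient.mk_surjective hker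
  have hqc : (q.map (Ideal.Quotient.mk k)).comap (Ideal.Quotient.mk k) = q := by
    rw [Ideal.comap_map_of_surjective' _ Ideal.Quotient.mk_surjective]
    exact sup_eq_left.2 hker
  have hγ : Ideal.Quotient.mk k g ≠ 0 := fun h => hk (Ideal.Quotient.eq_zero_iff_mem.1 h)
  have hγq : Ideal.Quotient.mk k g ∈ q.map (Ideal.Quotient.mk k) := Ideal.mem_map_of_mem _ hg
  obtain ⟨P, hP, hPq⟩ := Ideal.exists_minimalPrimes_le
    ((Ideal.span_singleton_le_iff_mem (x := Ideal.Quotient.mk k g) _).2 hγq)
  have hPp : P.IsPrime := hP.1.1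
  have hγP : Ideal.Quotient.mk k g ∈ P := hP.1.2 (Ideal.mem_span_singleton_self _)
  have hdom : IsDomain (Localization.AtPrime P) :=
    IsLocalization.isDomain_localization P.primeCompl_le_nonZeroDivisors
  have hdim : Ring.KrullDimLE 1 (Localization.AtPrime P) := by
    rw [Ring.krullDimLE_iff,
      IsLocalization.AtPrime.ringKrullDim_eq_height P (Localization.AtPrime P)]
    exact_mod_cast Ideal.height_le_one_of_isPrincipal_of_mem_minimalPrimes _ P hP
  have hnoe : IsNoetherianRing (Localization.AtPrime P) :=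
    IsLocalization.isNoetherianRing P.primeCompl _ inferInstance
  have hinj : Function.Injective (algebraMap (A ⧸ k) (Localization.AtPrime P)) :=
    IsLocalization.injective _ P.primeCompl_le_nonZeroDivisors
  have hnu : ∀ x : A ⧸ k, x ∈ P → ¬ IsUnit (algebraMap (A ⧸ k) (Localization.AtPrime P) x) :=
    fun x hx h => (IsLocalization.AtPrime.isUnit_to_map_iff _ P x).1 h hx
  obtain ⟨R, i1, i2, i3, t, ht, hloc⟩ := exists_dvr_local
    (B := Localization.AtPrime P) (γ := algebraMap (A ⧸ k) _ (Ideal.Quotient.mk k g))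
    (fun h => hγ (hinj (by rw [h, map_zero]))) ((mem_maximalIdeal _).2 (hnu _ hγP))
  refine ⟨R, i1, i2, i3, (t.comp (algebraMap (A ⧸ k) (Localization.AtPrime P))).comp
    (Ideal.Quotient.mk k), ?_, (mem_maximalIdeal _).2 fun h => hnu _ hγP (hloc _ h), ?_, ?_⟩
  · intro h
    exact hγ (hinj (ht (by rw [map_zero, map_zero]; exact h)))
  · intro x hx
    rw [← hqc]
    rw [Ideal.mem_comap] at hx ⊢
    apply hPq
    by_contra hxP
    have h1 : IsUnit (algebraMap (A ⧸ k) (Localization.AtPrime P) (Ideal.Quotient.mk k x)) :=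
      (IsLocalization.AtPrime.isUnit_to_map_iff _ P _).2 hxP
    exact (mem_maximalIdeal _).1 hx (h1.map t)
  · intro x hx
    simp only [RingHom.comp_apply]
    rw [Ideal.Quotient.eq_zero_iff_mem.2 hx, map_zero, map_zero]

end Exists

end Pool.Agent.N184.AF
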