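import Pool.Agent.N184.AF.Transfer

/-!
# The monodromy-weight conjecture in semistable families
-/

set_option autoImplicit false

open IsLocalRing Pool.Agent.Y143

namespace Pool.Agent.N184.AF

variable {A : Type} [CommRing A] [IsNoetherianRing A] {g : A} {Ω : ℕ → Type} [∀ ℓ, Field (Ω ℓ)]

/-- The key step: a point of `g = 0` which is a specialization of a point `p'` of `g = 0` at which there
is an arc of equal characteristic. -/
lemma monodromyIso_of_primes (F : SemistableFamily A g Ω) (q : PrimeSpectrum A) (k p' : Ideal A)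
    [k.IsPrime] [p'.IsPrime] (hk : k ≤ p') (hq : p' ≤ q.asIdeal) (hgk : g ∉ k) (hgp : g ∈ p')
    (hr : ∀ r : ℕ, r.Prime → (r : A) ∈ p' → (r : A) ∈ k) {ℓ : ℕ} (hℓ : ℓ.Prime)
    (hℓq : (ℓ : A) ∉ q.asIdeal) : HasMonodromyIso (F.strata ℓ q) := by
  obtain ⟨R, _, _, _, s, hs0, hs1, hs2, hs3⟩ := exists_dvr k p' hk hgp hgk
  have hle : closedPt s ≤ q := fun x hx => hq (hs2 hx)
  have hℓR : IsUnit (ℓ : R) := by
    by_contra hn
    have h1 : (ℓ : R) ∈ maximalIdeal R := (mem_maximalIdeal _).2 hn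
    exact hℓq (hle (show (ℓ : A) ∈ (maximalIdeal R).comap s by
      rw [Ideal.mem_comap, map_natCast]; exact h1))
  have hE : IsEqualChar R := by
    intro r hrp hrm
    have h1 : (r : A) ∈ p' := hs2 (show (r : A) ∈ (maximalIdeal R).comap s by
      rw [Ideal.mem_comap, map_natCast]; exact hrm)
    have h2 := hs3 _ (hr r hrp h1)
    rwa [map_natCast] at h2
  have h1 := F.equalChar R s hE hs0 hs1 ℓ hℓ hℓR
  have h2 := F.locallyConstant ℓ hℓ (closedPt s) q hle
    (show g ∈ (maximalIdeal R).comap s from hs1) hℓq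
  exact h2.symm.hasMonodromyIso h1

section

variable (F : SemistableFamily A g Ω) [∀ ℓ, CharZero (Ω ℓ)] {O : Type} [CommRing O]
  [IsLocalRing O] {s : A →+* O}

omit [IsNoetherianRing A] in
lemma isPureFibre_of (h : ∀ ℓ : ℕ, ℓ.Prime → (ℓ : A) ∉ (closedPt s).asIdeal →
    HasMonodromyIso (F.strata ℓ (closedPt s))) : IsPureFibre F O s := by
  intro ℓ hℓ hu Γ n X hX k
  refine isMWPure_of_iso X (Corresponds.hasMonodromyIso hX (h ℓ hℓ ?_)) k
  intro hm
  have h1 : (ℓ : O) ∈ maximalIdeal O := by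
    have : (ℓ : A) ∈ (maximalIdeal O).comap s := hm
    rwa [Ideal.mem_comap, map_natCast] at this
  exact (mem_maximalIdeal _).1 h1 hu

lemma isPureFibre_of_primes (k p' : Ideal A) [k.IsPrime] [p'.IsPrime] (hk : k ≤ p')
    (hq : p' ≤ (closedPt s).asIdeal) (hgk : g ∉ k) (hgp : g ∈ p')
    (hr : ∀ r : ℕ, r.Prime → (r : A) ∈ p' → (r : A) ∈ k) : IsPureFibre F O s :=
  isPureFibre_of F fun _ hℓ hℓq =>
    monodromyIso_of_primes F (closedPt s) k p' hk hq hgk hgp hr hℓ hℓq

/-- If the locus `p = 0` is not contained in the locus `g = 0` near the closed point, mw purity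
holds. -/
theorem pure_of_not_pInG {p : ℕ} (hp : p.Prime) (hpO : (p : O) ∈ maximalIdeal O)
    (hg : s g ∈ maximalIdeal O) (h : ¬ PInG g p (closedPt s).asIdeal) : IsPureFibre F O s := by
  obtain ⟨k, hk, hkq, hgk, hpk⟩ := exists_prime_of_not_pInG h
  refine isPureFibre_of_primes F k (closedPt s).asIdeal hkq le_rfl hgk hg fun r hr hrq => ?_
  have hpq : (p : A) ∈ (closedPt s).asIdeal := by
    change (p : A) ∈ (maximalIdeal O).comap s
    rwa [Ideal.mem_comap, map_natCast]
  rw [prime_unique (closedPt s).isPrime.ne_top hp hr hpq hrq]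
  exact hpk

/-- If the locus `g = 0` is not contained in the locus `p = 0` near the closed point, mw purity
holds. -/
theorem pure_of_not_gInP {p : ℕ} (hp : p.Prime) (hpO : (p : O) ∈ maximalIdeal O)
    (h : ¬ GInP g p (closedPt s).asIdeal) : IsPureFibre F O s := by
  obtain ⟨k, p', hk, hp', hkp, hpq, hgk, hgp, hpp⟩ := exists_primes_of_not_gInP h
  refine isPureFibre_of_primes F k p' hkp hpq hgk hgp fun r hr hrp => ?_
  have hpq' : (p : A) ∈ (closedPt s).asIdeal := by
    change (p : A) ∈ (maximalIdeal O).comap s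
    rwa [Ideal.mem_comap, map_natCast]
  exfalso
  apply hpp
  rwa [← prime_unique (closedPt s).isPrime.ne_top hp hr hpq' (hpq hrp)]

end

/-- The uniform statement. -/
theorem exists_uniform' {A : Type} [CommRing A] [IsNoetherianRing A] (g : A) :
    ∃ C : ℕ, ∀ (Ω : ℕ → Type) [∀ ℓ, Field (Ω ℓ)] [∀ ℓ, CharZero (Ω ℓ)]
      (F : SemistableFamily A g Ω) (O : Type) [CommRing O] [IsDomain O] [IsLocalRing O]
      (s : A →+* O), s g ≠ 0 →
      s g ∈ maximalIdeal O → ∀ p : ℕ, p.Prime → (p : O) ∈ maximalIdeal O →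
        C ≤ p ∨ s g ^ C ∣ (p : O) → IsPureFibre F O s := by
  obtain ⟨C, hC⟩ := exists_constant g
  refine ⟨C, ?_⟩
  intro Ω _ _ F O _ _ _ s hg0 hg p hp hpO hpC
  have hker : (RingHom.ker s).IsPrime := RingHom.ker_isPrime s
  obtain ⟨r, hr, hrk⟩ := Ideal.exists_minimalPrimes_le (I := ⊥) (J := RingHom.ker s) bot_le
  have hrp : r.IsPrime := hr.1.1
  have hgr : g ∉ r := fun h => hg0 ((RingHom.mem_ker).1 (hrk h))
  have hker_le : RingHom.ker s ≤ (closedPt s).asIdeal := by
    intro x hx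
    change s x ∈ maximalIdeal O
    rw [RingHom.mem_ker.1 hx]
    exact zero_mem _
  have hrg : r ⊔ Ideal.span {g} ≤ (closedPt s).asIdeal :=
    sup_le (hrk.trans hker_le) ((Ideal.span_singleton_le_iff_mem _).2 hg)
  obtain ⟨p', hp', hpq⟩ := Ideal.exists_minimalPrimes_le hrg
  have hpp : p'.IsPrime := hp'.1.1
  have hgp : g ∈ p' := hp'.1.2 (Ideal.mem_sup_right (Ideal.mem_span_singleton_self g))
  have hrp' : r ≤ p' := le_sup_left.trans hp'.1.2
  have hpq' : (p : A) ∈ (closedPt s).asIdeal := by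
    change (p : A) ∈ (maximalIdeal O).comap s
    rwa [Ideal.mem_comap, map_natCast]
  by_cases hin : (p : A) ∈ p'
  · have hbad : p ∈ badPrimes g := ⟨hp, r, hr, p', hp', hin⟩
    obtain ⟨hlt, N, hN, hst⟩ := hC p hbad
    have hdvd : s g ^ C ∣ (p : O) := hpC.resolve_left (by omega)
    refine pure_of_not_pInG F hp hpO hg ?_
    rintro ⟨M, t, ht, htM⟩
    obtain ⟨a, ha⟩ := Ideal.mem_span_singleton'.1 (hst M t htM)
    have htu : IsUnit (s t) := by
      by_contra hn
      exact ht (show t ∈ (maximalIdeal O).comap s from (mem_maximalIdeal _).2 hn)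
    have h1 : s a * (p : O) = s t * s g ^ N := by
      rw [← map_natCast s, ← map_mul, ha, map_mul, map_pow]
    have h2 : (p : O) ∣ s g ^ N := by
      rw [← htu.dvd_mul_left (a := (p : O)), ← h1]
      exact dvd_mul_left _ _
    have h3 : s g ^ (N + 1) ∣ s g ^ N := ((pow_dvd_pow _ hN).trans hdvd).trans h2
    obtain ⟨c, hc⟩ := h3
    have h4 : s g * c = 1 := by
      have h5 : s g ^ N * (s g * c) = s g ^ N * 1 := by
        rw [mul_one, ← mul_assoc, ← pow_succ]
        exact hc.symm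
      exact mul_left_cancel₀ (pow_ne_zero _ hg0) h5
    exact (mem_maximalIdeal _).1 hg (IsUnit.of_mul_eq_one _ h4)
  · refine isPureFibre_of_primes F r p' hrp' hpq hgr hgp fun r' hr' hrp'' => ?_
    exfalso
    apply hin
    rwa [← prime_unique (closedPt s).isPrime.ne_top hp hr' hpq' (hpq hrp'')]

end Pool.Agent.N184.AF
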