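import Pool.Agent.N184.AF.Defs
import Pool.Agent.Y143.Pure

/-!
# Transfer of the monodromy isomorphisms
-/

set_option autoImplicit false

open IsLocalRing Pool.Agent.Y143

namespace Pool.Agent.N184.AF

universe u v v' v''

section

variable {Ω : Type u} [Field Ω] {Γ Γ' Γ'' : Type} {X : StrataData.{u, v} Ω Γ}
  {Y : StrataData.{u, v'} Ω Γ'} {Z : StrataData.{u, v''} Ω Γ''}

lemma Corresponds.symm (h : Corresponds X Y) : Corresponds Y X := by
  obtain ⟨e, h1, h2, h3⟩ := h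
  refine ⟨fun a => (e a).symm, fun a m x => ?_, fun a x => ?_, fun a x => ?_⟩
  · rw [h1, LinearEquiv.apply_symm_apply]
  · rw [LinearEquiv.symm_apply_eq, h2, LinearEquiv.apply_symm_apply]
  · rw [LinearEquiv.symm_apply_eq, h3, LinearEquiv.apply_symm_apply]

/-- The isomorphism on families. -/
def totE (e : ∀ a, X.H a ≃ₗ[Ω] Y.H a) : X.C ≃ₗ[Ω] Y.C := LinearEquiv.piCongrRight e

lemma totE_apply (e : ∀ a, X.H a ≃ₗ[Ω] Y.H a) (x : X.C) (a : ℕ) : totE e x a = e a (x a) := rfl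

section

variable {e : ∀ a, X.H a ≃ₗ[Ω] Y.H a} (h1 : ∀ a m x, x ∈ X.gr a m ↔ e a x ∈ Y.gr a m)
  (h2 : ∀ a x, e (a + 1) (X.res a x) = Y.res a (e a x))
  (h3 : ∀ a x, e a (X.gys a x) = Y.gys a (e (a + 1) x))

include h1 in
lemma mem_E₁_iff (r w : ℤ) (x : X.C) : x ∈ X.E₁ r w ↔ totE e x ∈ Y.E₁ r w := by
  constructor
  · intro h a
    refine ⟨(h1 a _ _).1 (h a).1, fun hc => ?_⟩
    rw [totE_apply, (h a).2 hc, map_zero]
  · intro h a
    refine ⟨(h1 a _ _).2 (h a).1, fun hc => ?_⟩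
    have := (h a).2 hc
    rw [totE_apply] at this
    exact (LinearEquiv.map_eq_zero_iff _).1 this

include h2 h3 in
lemma totE_diff (r : ℤ) (x : X.C) : totE e (X.diff r x) = Y.diff r (totE e x) := by
  funext a
  change e a (X.cut (r + 1) (X.resC x + X.gysC x) a) =
    Y.cut (r + 1) (Y.resC (totE e x) + Y.gysC (totE e x)) a
  classical
  change e a (if InColumn (r + 1) a then (X.resC x + X.gysC x) a else 0) =
    (if InColumn (r + 1) a then (Y.resC (totE e x) + Y.gysC (totE e x)) a else 0)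
  split_ifs with hc
  · change e a (X.resC x a + X.gys a (x (a + 1))) = Y.resC (totE e x) a +
      Y.gys a (e (a + 1) (x (a + 1)))
    rw [map_add, h3]
    congr 1
    cases a with
    | zero => exact map_zero _
    | succ b => exact h2 b (x b)
  · exact map_zero _

include h1 h2 h3 in
lemma mem_cocycles_iff (r w : ℤ) (x : X.C) :
    x ∈ X.cocycles r w ↔ totE e x ∈ Y.cocycles r w := by
  unfold StrataData.cocycles
  rw [Submodule.mem_inf, Submodule.mem_inf, mem_E₁_iff h1, LinearMap.mem_ker, LinearMap.mem_ker,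
    ← totE_diff h2 h3, LinearEquiv.map_eq_zero_iff]

include h1 h2 h3 in
lemma mem_coboundaries_iff (r w : ℤ) (x : X.C) :
    x ∈ X.coboundaries r w ↔ totE e x ∈ Y.coboundaries r w := by
  unfold StrataData.coboundaries
  constructor
  · rintro ⟨y, hy, rfl⟩
    exact ⟨totE e y, (mem_E₁_iff h1 _ _ _).1 hy, (totE_diff h2 h3 _ _).symm⟩
  · rintro ⟨y, hy, hy'⟩
    refine ⟨(totE e).symm y, (mem_E₁_iff h1 _ _ _).2 (by rwa [LinearEquiv.apply_symm_apply]), ?_⟩
    apply (totE e).injective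
    rw [totE_diff h2 h3, LinearEquiv.apply_symm_apply, hy']

end

lemma Corresponds.hasMonodromyIso (h : Corresponds X Y) (hY : HasMonodromyIso Y) :
    HasMonodromyIso X := by
  obtain ⟨e, h1, h2, h3⟩ := h
  intro a w
  obtain ⟨hi, hs⟩ := hY a w
  constructor
  · intro x hx hx'
    rw [mem_coboundaries_iff h1 h2 h3]
    apply hi _ ((mem_cocycles_iff h1 h2 h3 _ _ _).1 hx)
    exact (mem_coboundaries_iff h1 h2 h3 _ _ _).1 hx'
  · intro y hy
    obtain ⟨x, hx, hx'⟩ := hs _ ((mem_cocycles_iff h1 h2 h3 _ _ _).1 hy)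
    refine ⟨(totE e).symm x, (mem_cocycles_iff h1 h2 h3 _ _ _).2
      (by rwa [LinearEquiv.apply_symm_apply]), ?_⟩
    rw [mem_coboundaries_iff h1 h2 h3]
    rw [Module.End.one_apply] at hx' ⊢
    rwa [map_sub, LinearEquiv.apply_symm_apply]

end

/-- mw purity from the monodromy isomorphisms. -/
theorem isMWPure_of_iso {Ω : Type u} [Field Ω] [CharZero Ω] {Γ : Type} {n q : ℕ}
    (X : SemistableModel.{u, v} Ω Γ n q) (h : HasMonodromyIso X.toStrataData) (k : ℕ) :
    IsMWPure q k (X.actV k X.frob) (X.N k) := by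
  refine X.isMWPure_of k (fun a _ => ?_) fun a _ => ?_
  · intro x hx
    obtain ⟨h1, h2⟩ := Submodule.mem_inf.1 hx
    rw [X.zc_eq, show (n : ℤ) + ((k : ℤ) - n) - -(a : ℤ) = k + a by ring] at h1
    rw [X.bd_eq, show (n : ℤ) + ((k : ℤ) - n) - (a : ℤ) = k - a by ring] at h2
    rw [X.bd_eq, show (n : ℤ) + ((k : ℤ) - n) - -(a : ℤ) = k + a by ring]
    exact (h a k).1 x h1 h2
  · intro y hy
    rw [X.zc_eq, show (n : ℤ) + ((k : ℤ) - n) - (a : ℤ) = k - a by ring] at hy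
    obtain ⟨x, hx, hx'⟩ := (h a k).2 y hy
    rw [X.zc_eq, show (n : ℤ) + ((k : ℤ) - n) - -(a : ℤ) = k + a by ring, X.bd_eq,
      show (n : ℤ) + ((k : ℤ) - n) - (a : ℤ) = k - a by ring]
    refine Submodule.mem_sup.2 ⟨x, hx, y - x, ?_, by abel⟩
    rwa [Module.End.one_apply] at hx'

end Pool.Agent.N184.AF
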